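import Pool.Agent.Helper99_qis.Final

set_option autoImplicit false

/-! Splittings of a finitely generated group, not assumed to be finitely presented, over two-ended
groups with line-inseparable vertex groups are recognised by quasi-isometries. -/

namespace Pool.Agent.Results.MP_bbdce3_al.RigidTrees

open Pool.Agent.Helper99

/-- If `G` acts on a rigid line tree (see `RigidLineTree`), then every group quasi-isometric to `G`
splits over a two-ended subgroup. -/
theorem result :
    ∀ (G H V : Type) [Group G] [Group H] [MulAction G V] (T : SimpleGraph V) (B : Set V),
      RigidLineTree G V T B → QuasiIsometric G H → SplitsOverTwoEnded H :=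
  fun _ _ _ _ _ _ T B hR hq => main T B hR hq

end Pool.Agent.Results.MP_bbdce3_al.RigidTrees
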